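import Pool.Agent.K3h76.HF.Conn

/-!
# `1/2`-flow-pairs: graphs without induced paths with eight vertices (MP_e59a69_co)

Let `G` be a connected bridgeless multigraph which has no induced path with eight vertices.  Then `G`
has a `1/2`-flow-pair, and at every vertex with exactly three edges (loops not counted) every
admissible choice of the values extends to a `1/2`-flow-pair of `G`.  The order, the degrees and the
connectivity are arbitrary, and there may be edge cuts with two or three edges.  (The components of a
disconnected graph can be treated separately.)

Proof.  The class of the graphs obtained from `G` by contraction of disjoint connected sets of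
vertices is considered.  By the files `R140/PK` (search for induced paths in graphs of girth at least
five and minimum degree three, with at least 18 odd vertices) each of them has a nowhere-zero 4-flow
or a Petersen quotient: a partition into ten classes, three edges leaving each class, whose quotient
is the Petersen graph.  In the first case Hoffman's theorem gives a `1/2`-flow-pair with prescribed
values at a vertex with three edges.  In the second case every class is connected: otherwise the three
edges that leave it would be the union of two nonempty edge cuts, one of which is a bridge.  Hence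
the complement of a class is connected, too, and it can be contracted; the ten smaller graphs belong
to the class of graphs considered, and the `1/2`-flow-pairs which exist by induction are glued along
a `1/2`-flow-pair of the Petersen graph.
-/

set_option autoImplicit false

namespace Pool.Agent.Results.MP_e59a69_co.InducedPathEight

open Finset Pool.Agent.H160R2.HF Pool.Agent.R129.Hfp

/-- `α e, β e` are admissible values of a `1/2`-flow-pair at the edges `e` of `w` (without loops):
the two sums of the outgoing values are zero, `|α e| ≤ 1`, `|β e| ≤ 3`, and `|β e| ≥ 2` if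
`α e = 0`. -/
def Admissible {V E : Type} [Fintype V] [Fintype E] [DecidableEq V] [DecidableEq E]
    (G : OrGraph V E) (w : V) (α β : E → ℤ) : Prop :=
  ∑ e ∈ G.cut {w}, (if G.t e = w then α e else - α e) = 0 ∧
  ∑ e ∈ G.cut {w}, (if G.t e = w then β e else - β e) = 0 ∧
  ∀ e ∈ G.cut {w}, |α e| ≤ 1 ∧ |β e| ≤ 3 ∧ (α e = 0 → 2 ≤ |β e|)

/-- The vertices `x` and `y` are joined by an edge. -/
def Adjacent {V E : Type} (G : OrGraph V E) (x y : V) : Prop :=
  ∃ e, (G.t e = x ∧ G.h e = y) ∨ (G.t e = y ∧ G.h e = x)

/-- Let `G` be a connected bridgeless multigraph without eight different vertices `p 0, ..., p 7` such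
that `p i` and `p j` (`i < j`) are adjacent if and only if `j = i + 1`. Then `G` has a
`1/2`-flow-pair, and all admissible values at a vertex with three edges extend. -/
theorem result (V E : Type) [Fintype V] [DecidableEq V] [Fintype E] [DecidableEq E]
    (G : OrGraph V E) (hB : G.Bridgeless) (hconn : (G.sub univ).Connected)
    (hp : ¬ ∃ p : Fin 8 → V, Function.Injective p ∧
      ∀ i j : Fin 8, i < j → (Adjacent G (p i) (p j) ↔ i.val + 1 = j.val)) :
    (∃ φ₂ φ₄ : E → ℤ, G.IsHalfFlowPair φ₂ φ₄) ∧
      ∀ w, (G.cut {w}).card = 3 → ∀ α β : E → ℤ, Admissible G w α β →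
        ∃ φ₂ φ₄ : E → ℤ, G.IsHalfFlowPair φ₂ φ₄ ∧ ∀ e ∈ G.cut {w}, φ₂ e = α e ∧ φ₄ e = β e := by
  have hc : ∀ x y, Relation.ReflTransGen (Pool.Agent.R140.PK.St G.t G.h univ (fun _ => True))
      x y := by
    intro x y
    obtain ⟨p⟩ := hconn.preconnected x y
    induction p with
    | nil => exact Relation.ReflTransGen.refl
    | cons hadj p ih =>
      refine Relation.ReflTransGen.trans (Relation.ReflTransGen.single ?_) ih
      unfold OrGraph.sub at hadj
      rw [SimpleGraph.fromRel_adj] at hadj
      obtain ⟨_, ⟨e, he, h1, h2⟩ | ⟨e, he, h1, h2⟩⟩ := hadj
      · exact ⟨⟨e, he, Or.inl ⟨h1, h2⟩⟩, trivial, trivial⟩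
      · exact ⟨⟨e, he, Or.inr ⟨h1, h2⟩⟩, trivial, trivial⟩
  obtain ⟨h1, h2⟩ := K3h76.HF.main8 (G := G) hp (G.cut_card_ne_one hB) hc
  exact ⟨h1, fun w hw α β ⟨a, b, c⟩ => h2 w hw α β a b c⟩

end Pool.Agent.Results.MP_e59a69_co.InducedPathEight
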