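import Pool.Agent.K3h83.HM.Mat8

/-!
# `1/2`-flow-pairs of bridgeless graphs with matching number at most eight (MP_e59a69_co)

Every bridgeless multigraph without nine pairwise disjoint edges has a `1/2`-flow-pair. The order,
the degrees and the connectivity are arbitrary, and the admissible values can be prescribed at any
vertex with exactly three edges (loops not counted). The Petersen graph has matching number five; the
smallest snarks which are not treated by the theorem on at most 16 odd vertices, the Blanusa snarks,
have matching number nine.

Proof. By a theorem of the starting library (files `R769/MN`, by way of the Tutte-Berge formula) a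
bridgeless multigraph of this kind has a nowhere-zero flow with values in the group of order four, or
a Petersen quotient: a partition into ten classes, each with three outgoing edges, whose quotient is
the Petersen graph. In the first case Hoffman's theorem gives a `1/2`-flow-pair with prescribed values
at a given vertex with three edges. In the second case all classes but one are identified, for each of
the ten classes; the matching number does not increase, and the ten `1/2`-flow-pairs which exist by
induction are glued along a `1/2`-flow-pair of the Petersen graph, in which all values allowed at one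
vertex are possible (files `R890/FF`).
-/

set_option autoImplicit false

namespace Pool.Agent.Results.MP_e59a69_co.MatchingNumberEight

open Finset Pool.Agent.H160R2.HF

/-- `M` is a matching of `G`: its edges are not loops and no two of them have a common end. -/
def IsMatching {V E : Type} [Fintype V] [Fintype E] [DecidableEq V] [DecidableEq E]
    (G : OrGraph V E) (M : Finset E) : Prop :=
  (∀ e ∈ M, G.t e ≠ G.h e) ∧ ∀ e ∈ M, ∀ e' ∈ M, e ≠ e' →
    G.t e ≠ G.t e' ∧ G.t e ≠ G.h e' ∧ G.h e ≠ G.t e' ∧ G.h e ≠ G.h e'

/-- Let `G` be a bridgeless multigraph in which every matching has at most eight edges.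
Then `G` has a `1/2`-flow-pair. Moreover, if exactly three edges join the vertex `w` to other
vertices, then all values `α, β` on these three edges that are allowed by the definition and by the
conservation of flow at `w` are taken by a `1/2`-flow-pair of `G`. -/
theorem result (V E : Type) [Fintype V] [Fintype E] [DecidableEq V] [DecidableEq E]
    (G : OrGraph V E) (hB : G.Bridgeless)
    (hM : ∀ M : Finset E, IsMatching G M → M.card ≤ 8) :
    (∃ φ₂ φ₄ : E → ℤ, G.IsHalfFlowPair φ₂ φ₄) ∧
      ∀ (w : V) (α β : E → ℤ), (G.cut {w}).card = 3 →
        (∀ e ∈ G.cut {w}, |α e| ≤ 1 ∧ |β e| ≤ 3 ∧ (α e = 0 → 2 ≤ |β e|)) →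
        ∑ e with G.t e = w, α e = ∑ e with G.h e = w, α e →
        ∑ e with G.t e = w, β e = ∑ e with G.h e = w, β e →
        ∃ φ₂ φ₄ : E → ℤ, G.IsHalfFlowPair φ₂ φ₄ ∧
          ∀ e ∈ G.cut {w}, φ₂ e = α e ∧ φ₄ e = β e :=
  K3h83.HM.hfp_match G hB hM

end Pool.Agent.Results.MP_e59a69_co.MatchingNumberEight
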