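import Pool.Agent.K3h76.HF.Gen

/-!
# `1/2`-flow-pairs: graphs with few pairwise non-adjacent odd sets (MP_e59a69_co)

Let `G` be a bridgeless multigraph and let `C_1, ..., C_m` be sets of edges, each of which

* has at most four edges outside the union of the earlier ones and no bridge modulo this union (for
  example a circuit with at most four new edges), or
* contains, outside the union of the earlier ones, two disjoint sets of edges each of which connects,
  modulo this union, whatever `C_i` connects.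

Let `F` be the union of the `C_i`, let `U` be a set of vertices and let `a ≥ 3`, `c ≥ 1` be integers
with `4 a + |U| + ⌊6 / c⌋ ≤ 21`.  Suppose that there are no `a + 1` pairwise disjoint and pairwise
non-adjacent vertex sets, disjoint from `U`, each with an odd number, at most `2 c + 1`, of boundary
edges, none of them in `F`.  Then `G` has a `1/2`-flow-pair, and at every vertex with exactly three
edges (loops not counted) every admissible choice of the values extends to a `1/2`-flow-pair of `G`.

For example (`m = 0`) this holds for all bridgeless multigraphs in which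

* no six vertices of odd degree, other than one given vertex, are pairwise non-adjacent, or
* no five vertices of odd degree, other than five given vertices, are pairwise non-adjacent, or
* no four vertices of odd degree, other than nine given vertices, are pairwise non-adjacent.

The number of the vertices of odd degree, and of all vertices, is arbitrary, and there may be edge cuts
with two or three edges.

Proof.  The class is closed under identifications of vertices, and quotients which collapse `F` have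
a nowhere-zero 4-flow or a quotient which is a Petersen graph (file `X186/IC/Core`); by the files
`R926/SC` the pieces `C_i` do not matter.  Then the induction of the file `R129/Hfp/Main` (Hoffman's
theorem, gluing along a Petersen graph) applies.
-/

set_option autoImplicit false

namespace Pool.Agent.Results.MP_e59a69_co.NonadjacentOddSets

open Finset Pool.Agent.H160R2.HF Pool.Agent.R129.Hfp

/-- The union of the sets `C j` with `j < i`. -/
def earlier {E : Type} [DecidableEq E] {m : ℕ} (C : Fin m → Finset E) (i : Fin m) : Finset E :=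
  (univ.filter (fun j => j < i)).biUnion C

/-- `C` is a piece relative to `F`: it has at most four edges outside `F` and no edge cut disjoint
from `F` has exactly one edge in `C`; or it contains two disjoint sets `T₁, T₂` of edges outside `F`
which meet every edge cut that is disjoint from `F` and meets `C`. -/
def IsPiece {V E : Type} [Fintype V] [Fintype E] [DecidableEq V] [DecidableEq E]
    (G : OrGraph V E) (F C : Finset E) : Prop :=
  ((C \ F).card ≤ 4 ∧ ∀ Y : Finset V, Disjoint (G.cut Y) F → (G.cut Y ∩ C).card ≠ 1) ∨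
  ∃ T₁ T₂ : Finset E, T₁ ⊆ C \ F ∧ T₂ ⊆ C \ F ∧ Disjoint T₁ T₂ ∧ ∀ Y : Finset V,
    Disjoint (G.cut Y) F → (G.cut Y ∩ C).Nonempty →
      (G.cut Y ∩ T₁).Nonempty ∧ (G.cut Y ∩ T₂).Nonempty

/-- `α e, β e` are admissible values of a `1/2`-flow-pair at the edges `e` of `w` (without loops):
the two sums of the outgoing values are zero, `|α e| ≤ 1`, `|β e| ≤ 3`, and `|β e| ≥ 2` if
`α e = 0`. -/
def Admissible {V E : Type} [Fintype V] [Fintype E] [DecidableEq V] [DecidableEq E]
    (G : OrGraph V E) (w : V) (α β : E → ℤ) : Prop :=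
  ∑ e ∈ G.cut {w}, (if G.t e = w then α e else - α e) = 0 ∧
  ∑ e ∈ G.cut {w}, (if G.t e = w then β e else - β e) = 0 ∧
  ∀ e ∈ G.cut {w}, |α e| ≤ 1 ∧ |β e| ≤ 3 ∧ (α e = 0 → 2 ≤ |β e|)

/-- `G` has a `1/2`-flow-pair, and all admissible values at a vertex with three edges extend. -/
def Flexible {V E : Type} [Fintype V] [Fintype E] [DecidableEq V] [DecidableEq E]
    (G : OrGraph V E) : Prop :=
  (∃ φ₂ φ₄ : E → ℤ, G.IsHalfFlowPair φ₂ φ₄) ∧
    ∀ w, (G.cut {w}).card = 3 → ∀ α β : E → ℤ, Admissible G w α β →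
      ∃ φ₂ φ₄ : E → ℤ, G.IsHalfFlowPair φ₂ φ₄ ∧ ∀ e ∈ G.cut {w}, φ₂ e = α e ∧ φ₄ e = β e

/-- There is no edge between the vertex sets `X` and `Y`. -/
def NonAdjacent {V E : Type} [Fintype V] [Fintype E] [DecidableEq V] [DecidableEq E]
    (G : OrGraph V E) (X Y : Finset V) : Prop :=
  ∀ e, ¬ (G.t e ∈ X ∧ G.h e ∈ Y) ∧ ¬ (G.t e ∈ Y ∧ G.h e ∈ X)

theorem result (V E : Type) [Fintype V] [DecidableEq V] [Fintype E] [DecidableEq E]
    (G : OrGraph V E) (hB : G.Bridgeless) :
    -- sets with small odd boundaries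
    (∀ (m : ℕ) (C : Fin m → Finset E) (U : Finset V) (a c : ℕ),
      (∀ i, IsPiece G (earlier C i) (C i)) → 3 ≤ a → 1 ≤ c → 4 * a + U.card + 6 / c ≤ 21 →
      (¬ ∃ X : Fin (a + 1) → Finset V,
        (∀ i j, i ≠ j → Disjoint (X i) (X j) ∧ NonAdjacent G (X i) (X j)) ∧
        (∀ i, Disjoint (X i) U) ∧ (∀ i, Disjoint (G.cut (X i)) (univ.biUnion C)) ∧
        ∀ i, Odd (G.cut (X i)).card ∧ (G.cut (X i)).card ≤ 2 * c + 1) → Flexible G) ∧
    -- vertices of odd degree (loops are counted twice, or not at all)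
    (∀ (U : Finset V) (a : ℕ), 3 ≤ a → 4 * a + U.card ≤ 21 →
      (¬ ∃ x : Fin (a + 1) → V, (∀ i j, i ≠ j → x i ≠ x j ∧ NonAdjacent G {x i} {x j}) ∧
        ∀ i, x i ∉ U ∧ Odd (G.cut {x i}).card) → Flexible G) := by
  have main1 : ∀ (m : ℕ) (C : Fin m → Finset E) (U : Finset V) (a c : ℕ),
      (∀ i, IsPiece G (earlier C i) (C i)) → 3 ≤ a → 1 ≤ c → 4 * a + U.card + 6 / c ≤ 21 →
      (¬ ∃ X : Fin (a + 1) → Finset V,
        (∀ i j, i ≠ j → Disjoint (X i) (X j) ∧ NonAdjacent G (X i) (X j)) ∧
        (∀ i, Disjoint (X i) U) ∧ (∀ i, Disjoint (G.cut (X i)) (univ.biUnion C)) ∧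
        ∀ i, Odd (G.cut (X i)).card ∧ (G.cut (X i)).card ≤ 2 * c + 1) → Flexible G := by
    intro m C U a c hC ha hc hle ho
    have hcls : K3h76.HF.Cls K3h76.HF.Q2 G := by
      refine ⟨m, C, fun i => ?_, U, a, c, ha, hc, hle, ?_⟩
      · rcases hC i with ⟨h1, h2⟩ | ⟨T₁, T₂, h1, h2, h3, h4⟩
        · refine Or.inl ⟨fun Y hY => ?_, h1⟩
          have h5 : Pool.Agent.TH676.Z.crs G.t G.h Y ∩
              (C i \ (univ.filter (fun j => j < i)).biUnion C) = G.cut Y ∩ C i := by
            ext e
            simp only [mem_inter, mem_sdiff]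
            constructor
            · rintro ⟨h1, h2, -⟩
              exact ⟨h1, h2⟩
            · rintro ⟨h1, h2⟩
              exact ⟨h1, h2, fun h3 => (disjoint_left.mp hY) h1 h3⟩
          rw [h5]
          exact h2 Y hY
        · refine Or.inr ⟨T₁, T₂, h1, h2, h3, fun Y hY hne => ?_⟩
          have h5 : (G.cut Y ∩ C i).Nonempty := by
            obtain ⟨e, he1, he2⟩ := not_disjoint_iff.1 hne
            exact ⟨e, mem_inter.2 ⟨he1, (mem_sdiff.1 he2).1⟩⟩
          obtain ⟨⟨a, ha⟩, ⟨b, hb⟩⟩ := h4 Y hY h5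
          rw [mem_inter] at ha hb
          exact ⟨not_disjoint_iff.2 ⟨a, ha.1, ha.2⟩, not_disjoint_iff.2 ⟨b, hb.1, hb.2⟩⟩
      · rintro ⟨X, h1, h2, h3, h4⟩
        refine ho ⟨X, fun i j hij => ⟨(h1 i j hij).1, fun e => ⟨(h1 i j hij).2 e, ?_⟩⟩, h2, h3, h4⟩
        intro he
        exact (h1 j i (Ne.symm hij)).2 e he
    obtain ⟨h1, h2⟩ := K3h76.HF.chains K3h76.HF.Q2 (fun _ _ _ ρ h => h.map ρ)
      (fun _ _ _ h r hr hn => h.dich r hr hn) hcls (G.cut_card_ne_one hB)
    exact ⟨h1, fun w hw α β ⟨a, b, c⟩ => h2 w hw α β a b c⟩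
  refine ⟨main1, fun U a ha hle hno => main1 0 (fun _ => ∅) U a 7 (fun i => i.elim0) ha
    (by norm_num) (by simpa using hle) ?_⟩
  rintro ⟨X, h1, h2, -, h4⟩
  -- every set with an odd boundary contains a vertex of odd degree
  have hodd : ∀ i, ∃ v ∈ X i, Odd (G.cut {v}).card := by
    intro i
    by_contra hcon
    push Not at hcon
    have hev : ∀ v ∈ X i, Even (G.cut {v}).card := fun v hv => by
      have := hcon v hv
      rwa [Nat.not_odd_iff_even] at this
    have hpar : (G.cut (X i)).card % 2 = (∑ v ∈ X i, (G.cut {v}).card) % 2 := by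
      exact K3h76.HF.cut_parity G (X i)
    have : Even (∑ v ∈ X i, (G.cut {v}).card) := even_sum _ hev
    rw [Nat.even_iff] at this
    have h5 := (h4 i).1
    rw [Nat.odd_iff] at h5
    omega
  choose x hx1 hx2 using hodd
  refine hno ⟨x, fun i j hij => ⟨fun h => ?_, fun e => ⟨fun h => ?_, fun h => ?_⟩⟩, fun i =>
    ⟨fun h => disjoint_left.1 (h2 i) (hx1 i) h, hx2 i⟩⟩
  · exact disjoint_left.1 (h1 i j hij).1 (hx1 i) (h ▸ hx1 j)
  · rw [mem_singleton, mem_singleton] at h
    exact ((h1 i j hij).2 e).1 ⟨h.1 ▸ hx1 i, h.2 ▸ hx1 j⟩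
  · rw [mem_singleton, mem_singleton] at h
    exact ((h1 i j hij).2 e).2 ⟨h.1 ▸ hx1 j, h.2 ▸ hx1 i⟩

end Pool.Agent.Results.MP_e59a69_co.NonadjacentOddSets
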