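import Pool.Agent.K3h76.HF.Gen

/-!
# `1/2`-flow-pairs: graphs with few disjoint small odd edge cuts (MP_e59a69_co)

Let `G` be a bridgeless multigraph and let `C_1, ..., C_m` be sets of edges, each of which

* has at most four edges outside the union of the earlier ones and no bridge modulo this union (for
  example a circuit with at most four new edges), or
* contains, outside the union of the earlier ones, two disjoint sets of edges each of which connects,
  modulo this union, whatever `C_i` connects (for example the union of two disjoint connected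
  subgraphs with the same vertices).

Let `F` be the union of the `C_i`.  Suppose that any `k ≥ 18` pairwise disjoint vertex sets, each with
an odd number of boundary edges and with no boundary edge in `F`, have together at least `4 k - 5`
boundary edges.  Then `G` has a `1/2`-flow-pair, and at every vertex with exactly three edges (loops
not counted) every admissible choice of the values extends to a `1/2`-flow-pair of `G`.

For example (`m = 0`) this holds for all bridgeless multigraphs without twelve pairwise disjoint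
vertex sets with exactly three boundary edges: the vertices of degree three and, more generally, the
nontrivial edge cuts with three edges are few, but the number of vertices of odd degree is arbitrary.

Proof.  The class is closed under identifications of vertices, and quotients which collapse `F` have
a nowhere-zero 4-flow or a quotient which is a Petersen graph (file `X42/FlowH`, the bound for the
number of disjoint odd sets in the theorem on at most sixteen odd vertices); by the files `R926/SC`
the pieces `C_i` do not matter.  Then the induction of the file `R129/Hfp/Main` (Hoffman's theorem,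
gluing along a Petersen graph) applies.
-/

set_option autoImplicit false

namespace Pool.Agent.Results.MP_e59a69_co.SmallOddCuts

open Finset Pool.Agent.H160R2.HF Pool.Agent.R129.Hfp

/-- The union of the sets `C j` with `j < i`. -/
def earlier {E : Type} [DecidableEq E] {m : ℕ} (C : Fin m → Finset E) (i : Fin m) : Finset E :=
  (univ.filter (fun j => j < i)).biUnion C

/-- `C` is a piece relative to `F`: it has at most four edges outside `F` and no edge cut disjoint
from `F` has exactly one edge in `C`; or it contains two disjoint sets `T₁, T₂` of edges outside `F`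
which meet every edge cut that is disjoint from `F` and meets `C`. -/
def IsPiece {V E : Type} [Fintype V] [Fintype E] [DecidableEq V] [DecidableEq E]
    (G : OrGraph V E) (F C : Finset E) : Prop :=
  ((C \ F).card ≤ 4 ∧ ∀ Y : Finset V, Disjoint (G.cut Y) F → (G.cut Y ∩ C).card ≠ 1) ∨
  ∃ T₁ T₂ : Finset E, T₁ ⊆ C \ F ∧ T₂ ⊆ C \ F ∧ Disjoint T₁ T₂ ∧ ∀ Y : Finset V,
    Disjoint (G.cut Y) F → (G.cut Y ∩ C).Nonempty →
      (G.cut Y ∩ T₁).Nonempty ∧ (G.cut Y ∩ T₂).Nonempty

/-- `α e, β e` are admissible values of a `1/2`-flow-pair at the edges `e` of `w` (without loops):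
the two sums of the outgoing values are zero, `|α e| ≤ 1`, `|β e| ≤ 3`, and `|β e| ≥ 2` if
`α e = 0`. -/
def Admissible {V E : Type} [Fintype V] [Fintype E] [DecidableEq V] [DecidableEq E]
    (G : OrGraph V E) (w : V) (α β : E → ℤ) : Prop :=
  ∑ e ∈ G.cut {w}, (if G.t e = w then α e else - α e) = 0 ∧
  ∑ e ∈ G.cut {w}, (if G.t e = w then β e else - β e) = 0 ∧
  ∀ e ∈ G.cut {w}, |α e| ≤ 1 ∧ |β e| ≤ 3 ∧ (α e = 0 → 2 ≤ |β e|)

/-- `G` has a `1/2`-flow-pair, and all admissible values at a vertex with three edges extend. -/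
def Flexible {V E : Type} [Fintype V] [Fintype E] [DecidableEq V] [DecidableEq E]
    (G : OrGraph V E) : Prop :=
  (∃ φ₂ φ₄ : E → ℤ, G.IsHalfFlowPair φ₂ φ₄) ∧
    ∀ w, (G.cut {w}).card = 3 → ∀ α β : E → ℤ, Admissible G w α β →
      ∃ φ₂ φ₄ : E → ℤ, G.IsHalfFlowPair φ₂ φ₄ ∧ ∀ e ∈ G.cut {w}, φ₂ e = α e ∧ φ₄ e = β e

theorem result (V E : Type) [Fintype V] [DecidableEq V] [Fintype E] [DecidableEq E]
    (G : OrGraph V E) (hB : G.Bridgeless) :
    -- graphs composed of pieces and a graph with few disjoint sets with small odd boundaries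
    (∀ (m : ℕ) (C : Fin m → Finset E), (∀ i, IsPiece G (earlier C i) (C i)) →
      (∀ (k : ℕ) (X : Fin k → Finset V), 18 ≤ k → (∀ i j, i ≠ j → Disjoint (X i) (X j)) →
        (∀ i, Disjoint (G.cut (X i)) (univ.biUnion C)) → (∀ i, Odd (G.cut (X i)).card) →
        4 * k ≤ ∑ i, (G.cut (X i)).card + 5) → Flexible G) ∧
    -- no twelve disjoint sets with three boundary edges
    ((¬ ∃ X : Fin 12 → Finset V, (∀ i j, i ≠ j → Disjoint (X i) (X j)) ∧
      ∀ i, (G.cut (X i)).card = 3) → Flexible G) := by
  have main1 : ∀ (m : ℕ) (C : Fin m → Finset E), (∀ i, IsPiece G (earlier C i) (C i)) →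
      (∀ (k : ℕ) (X : Fin k → Finset V), 18 ≤ k → (∀ i j, i ≠ j → Disjoint (X i) (X j)) →
        (∀ i, Disjoint (G.cut (X i)) (univ.biUnion C)) → (∀ i, Odd (G.cut (X i)).card) →
        4 * k ≤ ∑ i, (G.cut (X i)).card + 5) → Flexible G := by
    intro m C hC ho
    have hcls : K3h76.HF.Cls K3h76.HF.Q1 G := by
      refine ⟨m, C, fun i => ?_, fun k X hk h1 h2 h3 => ho k X hk h1 h2 h3⟩
      rcases hC i with ⟨h1, h2⟩ | ⟨T₁, T₂, h1, h2, h3, h4⟩
      · refine Or.inl ⟨fun Y hY => ?_, h1⟩
        have h5 : Pool.Agent.TH676.Z.crs G.t G.h Y ∩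
            (C i \ (univ.filter (fun j => j < i)).biUnion C) = G.cut Y ∩ C i := by
          ext e
          simp only [mem_inter, mem_sdiff]
          constructor
          · rintro ⟨h1, h2, -⟩
            exact ⟨h1, h2⟩
          · rintro ⟨h1, h2⟩
            exact ⟨h1, h2, fun h3 => (disjoint_left.mp hY) h1 h3⟩
        rw [h5]
        exact h2 Y hY
      · refine Or.inr ⟨T₁, T₂, h1, h2, h3, fun Y hY hne => ?_⟩
        have h5 : (G.cut Y ∩ C i).Nonempty := by
          obtain ⟨e, he1, he2⟩ := not_disjoint_iff.1 hne
          exact ⟨e, mem_inter.2 ⟨he1, (mem_sdiff.1 he2).1⟩⟩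
        obtain ⟨⟨a, ha⟩, ⟨b, hb⟩⟩ := h4 Y hY h5
        rw [mem_inter] at ha hb
        exact ⟨not_disjoint_iff.2 ⟨a, ha.1, ha.2⟩, not_disjoint_iff.2 ⟨b, hb.1, hb.2⟩⟩
    obtain ⟨h1, h2⟩ := K3h76.HF.chains K3h76.HF.Q1 (fun _ _ _ ρ h => h.map ρ)
      (fun _ _ _ h r hr hn => h.dich r hr hn) hcls (G.cut_card_ne_one hB)
    exact ⟨h1, fun w hw α β ⟨a, b, c⟩ => h2 w hw α β a b c⟩
  refine ⟨main1, fun hno => main1 0 (fun _ => ∅) (fun i => i.elim0) ?_⟩
  intro k X hk hdis _ hodd
  by_contra hlt
  push Not at hlt
  -- at least twelve of the sets have three boundary edges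
  set A : Finset (Fin k) := univ.filter (fun i => (G.cut (X i)).card = 3) with hA
  have h5 : ∀ i, i ∉ A → 5 ≤ (G.cut (X i)).card := by
    intro i hi
    have h1 := G.cut_card_ne_one hB (X i)
    obtain ⟨q, hq⟩ := hodd i
    have h2 : (G.cut (X i)).card ≠ 3 := by
      intro h
      exact hi (by rw [hA]; exact mem_filter.2 ⟨mem_univ _, h⟩)
    omega
  have hsum : 3 * A.card + 5 * (k - A.card) ≤ ∑ i, (G.cut (X i)).card := by
    have e1 : ∑ i, (G.cut (X i)).card = ∑ i ∈ A, (G.cut (X i)).card +
        ∑ i ∈ univ \ A, (G.cut (X i)).card := by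
      rw [add_comm, sum_sdiff (subset_univ A)]
    rw [e1]
    have e2 : ∑ i ∈ A, (G.cut (X i)).card = 3 * A.card := by
      rw [sum_congr rfl (g := fun _ => 3) (fun i hi => (mem_filter.1 hi).2), sum_const,
        smul_eq_mul, mul_comm]
    have e3 : 5 * (univ \ A).card ≤ ∑ i ∈ univ \ A, (G.cut (X i)).card := by
      have := card_nsmul_le_sum (univ \ A) (fun i => (G.cut (X i)).card) 5
        (fun i hi => h5 i (mem_sdiff.1 hi).2)
      rw [smul_eq_mul] at this
      omega
    have e4 : (univ \ A).card = k - A.card := by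
      rw [card_sdiff_of_subset (subset_univ A), card_univ, Fintype.card_fin]
    rw [e4] at e3
    omega
  have hAk : A.card ≤ k := by
    have := card_le_univ A
    rwa [Fintype.card_fin] at this
  have h12 : 12 ≤ A.card := by omega
  obtain ⟨B, hBA, hB12⟩ := exists_subset_card_eq h12
  refine hno ⟨fun j => X (B.orderEmbOfFin hB12 j), fun i j hij => hdis _ _ fun h => ?_, fun j => ?_⟩
  · exact hij ((B.orderEmbOfFin hB12).injective h)
  · exact (mem_filter.1 (hBA (B.orderEmbOfFin_mem hB12 j))).2

end Pool.Agent.Results.MP_e59a69_co.SmallOddCuts
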